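import Pool.Agent.Helper49.LC.St

/-!
Project LC (MP_58b586_gt), module MOL: Moser's identity, local version (adapted from Helper39/LK/M_MOS.lean).
-/

set_option autoImplicit false

open MeasureTheory Set Filter
open scoped ContDiff Topology

namespace Pool.Agent.Helper97.LC

open Pool.Agent.Helper14.LK Pool.Agent.Helper49.LC

variable {E : Type} [NormedAddCommGroup E] [NormedSpace ℝ E]

private theorem symm2 {X Y : Type} [NormedAddCommGroup X] [NormedSpace ℝ X] [NormedAddCommGroup Y]
    [NormedSpace ℝ Y] {g : X → Y} (hg : ContDiff ℝ ∞ g) (x u v : X) :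
    fderiv ℝ (fderiv ℝ g) x u v = fderiv ℝ (fderiv ℝ g) x v u := by
  have h : IsSymmSndFDerivAt ℝ g x := by
    apply ContDiffAt.isSymmSndFDerivAt (n := 2) ((hg.of_le (WithTop.coe_le_coe.2 (le_top : (2 : ℕ∞) ≤ ⊤))).contDiffAt)
    simp
  exact h.eq u v

private theorem hasF {X Y : Type} [NormedAddCommGroup X] [NormedSpace ℝ X] [NormedAddCommGroup Y]
    [NormedSpace ℝ Y] {g : X → Y} (hg : ContDiff ℝ ∞ g) (x : X) : HasFDerivAt g (fderiv ℝ g x) x :=
  (hg.differentiable (by simp) x).hasFDerivAt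

private theorem smoothD {X Y : Type} [NormedAddCommGroup X] [NormedSpace ℝ X] [NormedAddCommGroup Y]
    [NormedSpace ℝ Y] {g : X → Y} (hg : ContDiff ℝ ∞ g) : ContDiff ℝ ∞ (fderiv ℝ g) :=
  hg.fderiv_right (by simp)

/-- exchange of derivatives for a flow -/
private theorem flow_deriv {V G : ℝ → E → E} (hV : ContDiff ℝ ∞ (Function.uncurry V))
    (hG : ContDiff ℝ ∞ (Function.uncurry G))
    (hf : ∀ t w, HasDerivAt (fun s => G s w) (V t (G t w)) t) (t : ℝ) (w a : E) :
    HasDerivAt (fun s => fderiv ℝ (G s) w a) (fderiv ℝ (V t) (G t w) (fderiv ℝ (G t) w a)) t := by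
  set g : ℝ × E → E := Function.uncurry G with hg
  have e1 : ∀ s (x : E), fderiv ℝ g (s, x) (1, 0) = V s (G s x) := by
    intro s x
    have h1 : HasDerivAt (fun r : ℝ => ((r, x) : ℝ × E)) (1, 0) s := (hasDerivAt_id s).prodMk (hasDerivAt_const s x)
    have h2 := HasFDerivAt.comp_hasDerivAt s (hasF hG (s, x)) h1
    exact h2.unique (hf s x)
  have e2 : ∀ s (x u : E), fderiv ℝ g (s, x) (0, u) = fderiv ℝ (G s) x u := by
    intro s x u
    have h1 : HasFDerivAt (fun y : E => ((s, y) : ℝ × E)) (ContinuousLinearMap.inr ℝ ℝ E) x :=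
      hasFDerivAt_prodMk_right s x
    have h2 : HasFDerivAt (fun y => g (s, y)) ((fderiv ℝ g (s, x)).comp (ContinuousLinearMap.inr ℝ ℝ E)) x :=
      (hasF hG (s, x)).comp x h1
    have h3 : fderiv ℝ (G s) x = (fderiv ℝ g (s, x)).comp (ContinuousLinearMap.inr ℝ ℝ E) := h2.fderiv
    rw [h3]
    rfl
  have hD := smoothD hG
  have e3 : HasDerivAt (fun s => fderiv ℝ g (s, w) (0, a)) (fderiv ℝ (fderiv ℝ g) (t, w) (1, 0) (0, a)) t := by
    have h1 : HasDerivAt (fun r : ℝ => ((r, w) : ℝ × E)) (1, 0) t := (hasDerivAt_id t).prodMk (hasDerivAt_const t w)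
    have h2 := HasFDerivAt.comp_hasDerivAt t (hasF hD (t, w)) h1
    have h3 := h2.clm_apply (hasDerivAt_const t ((0, a) : ℝ × E))
    simpa using h3
  have e4 : fderiv ℝ (fderiv ℝ g) (t, w) (0, a) (1, 0) = fderiv ℝ (V t) (G t w) (fderiv ℝ (G t) w a) := by
    have h1 : HasFDerivAt (fun y : E => ((t, y) : ℝ × E)) (ContinuousLinearMap.inr ℝ ℝ E) w :=
      hasFDerivAt_prodMk_right t w
    have h2 : HasFDerivAt (fun y => fderiv ℝ g (t, y))
        ((fderiv ℝ (fderiv ℝ g) (t, w)).comp (ContinuousLinearMap.inr ℝ ℝ E)) w :=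
      (hasF hD (t, w)).comp w h1
    have h3 : HasFDerivAt (fun y => fderiv ℝ g (t, y) (1, 0)) _ w :=
      h2.clm_apply (hasFDerivAt_const ((1, 0) : ℝ × E) w)
    have h4 : HasFDerivAt (fun y => V t (G t y)) ((fderiv ℝ (V t) (G t w)).comp (fderiv ℝ (G t) w)) w := by
      have hVt : ContDiff ℝ ∞ (V t) := by
        have := hV.comp ((contDiff_const (c := t)).prodMk (contDiff_id (𝕜 := ℝ) (E := E)))
        exact this
      have hGt : ContDiff ℝ ∞ (G t) := by
        have := hG.comp ((contDiff_const (c := t)).prodMk (contDiff_id (𝕜 := ℝ) (E := E)))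
        exact this
      exact (hasF hVt (G t w)).comp w (hasF hGt w)
    have h5 : (fun y => fderiv ℝ g (t, y) (1, 0)) = fun y => V t (G t y) := funext fun y => e1 t y
    rw [h5] at h3
    have h6 := congrArg (fun L : E →L[ℝ] E => L a) (h3.unique h4)
    simpa using h6
  rw [symm2 hG, e4] at e3
  have e5 : (fun s => fderiv ℝ g (s, w) (0, a)) = fun s => fderiv ℝ (G s) w a := funext fun s => e2 s w a
  rw [e5] at e3
  exact e3

private theorem om_deriv {n : ℕ} {x y : ℝ → WW n} {x' y' : WW n} {t : ℝ} (hx : HasDerivAt x x' t)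
    (hy : HasDerivAt y y' t) :
    HasDerivAt (fun s => om (x s) (y s)) (om x' (y t) + om (x t) y') t := by
  have h1 : HasDerivAt (fun s => omL n (x s)) (omL n x') t := (omL n).hasFDerivAt.comp_hasDerivAt t hx
  have h2 := h1.clm_apply hy
  simpa using h2

private theorem om_fderiv {n : ℕ} {x y : WW n → WW n} {x' y' : WW n →L[ℝ] WW n} {w : WW n}
    (hx : HasFDerivAt x x' w) (hy : HasFDerivAt y y' w) (p : WW n) :
    fderiv ℝ (fun s => om (x s) (y s)) w p = om (x' p) (y w) + om (x w) (y' p) ∧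
      DifferentiableAt ℝ (fun s => om (x s) (y s)) w := by
  have h1 : HasFDerivAt (fun s => omL n (x s)) ((omL n).comp x') w := (omL n).hasFDerivAt.comp w hx
  have h2 := h1.clm_apply hy
  have h3 : (fun s => (omL n (x s)) (y s)) = fun s => om (x s) (y s) := funext fun s => omL_apply _ _
  rw [h3] at h2
  refine ⟨?_, h2.differentiableAt⟩
  rw [h2.fderiv]
  simp [add_comm]

theorem hMOL : StMOL := by
  intro n U hU F σ β V G hF hσ hβ hV hG hG0 hf hdσ hB hβ0 w hwU t a b
  have hVt : ∀ t, ContDiff ℝ ∞ (V t) := fun t =>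
    hV.comp ((contDiff_const (c := t)).prodMk (contDiff_id (𝕜 := ℝ) (E := WW n)))
  -- the differentiated hypothesis
  have hdB : ∀ t, ∀ x ∈ U, ∀ (p q : WW n),
      (1 - β t) * om (fderiv ℝ (V t) x p) q +
        β t * (om (fderiv ℝ (fderiv ℝ F) x p (V t x)) (fderiv ℝ F x q) +
          om (fderiv ℝ F x (fderiv ℝ (V t) x p)) (fderiv ℝ F x q) +
          om (fderiv ℝ F x (V t x)) (fderiv ℝ (fderiv ℝ F) x p q)) =
        - (deriv β t * fderiv ℝ σ x p q) := by
    intro t x hxU p q
    have hVx := hasF (hVt t) x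
    have hFx := hasF (smoothD hF) x
    have hσx := hasF hσ x
    have c1 := om_fderiv hVx (hasFDerivAt_const q x) p
    have hFV : HasFDerivAt (fun y => fderiv ℝ F y (V t y)) _ x := hFx.clm_apply hVx
    have hFq : HasFDerivAt (fun y => fderiv ℝ F y q) _ x := hFx.clm_apply (hasFDerivAt_const q x)
    have c2 := om_fderiv hFV hFq p
    have hσq : HasFDerivAt (fun y => σ y q) _ x := hσx.clm_apply (hasFDerivAt_const q x)
    have key : (fun y => (1 - β t) * om (V t y) q +
        β t * om (fderiv ℝ F y (V t y)) (fderiv ℝ F y q)) =ᶠ[𝓝 x]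
        fun y => - (deriv β t * σ y q) :=
      Filter.eventually_of_mem (hU.mem_nhds hxU) fun y hy => hB t y hy q
    have k2 := congrArg (fun L : WW n →L[ℝ] ℝ => L p) key.fderiv_eq
    rw [fderiv_fun_add (c1.2.const_mul _) (c2.2.const_mul _), fderiv_const_mul c1.2,
      fderiv_const_mul c2.2, fderiv_fun_neg, fderiv_const_mul hσq.differentiableAt] at k2
    simp only [add_apply, FunLike.coe_smul, Pi.smul_apply, smul_eq_mul,
      neg_apply] at k2
    rw [c1.1, c2.1, hσq.fderiv] at k2
    simp only [add_apply, ContinuousLinearMap.comp_apply,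
      ContinuousLinearMap.flip_apply, zero_apply, map_zero, zero_add] at k2
    have z1 : om (V t x) (0 : WW n) = 0 := by simp [om]
    rw [z1, om_add_left] at k2
    linarith
  -- the function is constant
  set Q : ℝ → ℝ := fun t => (1 - β t) * om (fderiv ℝ (G t) w a) (fderiv ℝ (G t) w b) +
    β t * om (fderiv ℝ F (G t w) (fderiv ℝ (G t) w a)) (fderiv ℝ F (G t w) (fderiv ℝ (G t) w b)) with hQ
  have hQd : ∀ t, HasDerivAt Q 0 t := by
    intro t
    have hp := flow_deriv hV hG hf t w a
    have hq := flow_deriv hV hG hf t w b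
    have hβt : HasDerivAt β (deriv β t) t := (hβ.differentiable (by simp) t).hasDerivAt
    have hDF : HasDerivAt (fun s => fderiv ℝ F (G s w)) (fderiv ℝ (fderiv ℝ F) (G t w) (V t (G t w))) t :=
      (hasF (smoothD hF) (G t w)).comp_hasDerivAt t (hf t w)
    have hDp := hDF.clm_apply hp
    have hDq := hDF.clm_apply hq
    have h1 := (hβt.const_sub 1).mul (om_deriv hp hq)
    have h2 := hβt.mul (om_deriv hDp hDq)
    have h3 := h1.add h2
    have h4 : HasDerivAt Q _ t := h3
    convert h4 using 1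
    have hxU : G t w ∈ U := hwU t
    set x := G t w
    set p := fderiv ℝ (G t) w a
    set q := fderiv ℝ (G t) w b
    have k1 := hdB t x hxU p q
    have k2 := hdB t x hxU q p
    have k3 := hdσ x p q
    rw [symm2 hF x p (V t x)] at k1
    rw [symm2 hF x q (V t x), symm2 hF x q p] at k2
    rw [om_antisymm (fderiv ℝ (V t) x q) p,
      om_antisymm (fderiv ℝ (fderiv ℝ F) x (V t x) q) (fderiv ℝ F x p),
      om_antisymm (fderiv ℝ F x (fderiv ℝ (V t) x q)) (fderiv ℝ F x p)] at k2
    rw [om_add_left, om_add_right]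
    have k4 := congrArg (fun y => deriv β t * y) k3
    linarith
  have hconst := is_const_of_deriv_eq_zero (f := Q) (fun t => (hQd t).differentiableAt)
    (fun t => (hQd t).deriv) t 0
  have hQ0 : Q 0 = om a b := by
    have hid : G 0 = id := funext hG0
    simp only [hQ]
    rw [hβ0, hid]
    simp
  have : Q t = om a b := hconst.trans hQ0
  exact this

end Pool.Agent.Helper97.LC
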